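import Mathlib

/-! Regular local rings are domains, and quotients of regular local rings by elements of
`m \ m²` are regular. -/

open IsLocalRing Ideal

namespace Pool.Agent.Lib.RegularUFD

universe u
variable {R : Type u} [CommRing R]

theorem spanFinrank_quot_lt [IsLocalRing R] [IsNoetherianRing R] (x : R) (hx : x ∈ maximalIdeal R)
    (hx2 : x ∉ maximalIdeal R ^ 2) [IsLocalRing (R ⧸ span {x})] :
    (maximalIdeal (R ⧸ span {x})).spanFinrank + 1 ≤ (maximalIdeal R).spanFinrank := by
  classical
  set v : CotangentSpace R := (maximalIdeal R).toCotangent ⟨x, hx⟩ with hv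
  have hv0 : v ≠ 0 := by
    rw [hv, Ne, Ideal.toCotangent_eq_zero]
    exact hx2
  have hli : LinearIndepOn (ResidueField R) id ({v} : Set (CotangentSpace R)) := by
    rw [linearIndepOn_singleton_iff]
    exact hv0
  set B : Set (CotangentSpace R) := hli.extend (Set.subset_univ _) with hB
  let b : Module.Basis B (ResidueField R) (CotangentSpace R) := Module.Basis.extend hli
  have hvB : v ∈ B := hli.subset_extend _ (Set.mem_singleton v)
  have hspan : Submodule.span (ResidueField R) B = ⊤ := by
    have := b.span_eq
    rwa [Module.Basis.range_extend] at this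
  have hfin : B.Finite := (Module.Finite.finite_basis b : Finite B)
  have hcard : B.ncard = (maximalIdeal R).spanFinrank := by
    rw [spanFinrank_maximalIdeal_eq_finrank_cotangentSpace, ← Nat.card_coe_set_eq,
      Module.finrank_eq_nat_card_basis b]
  obtain ⟨σ, hσ⟩ := (Ideal.toCotangent_surjective (maximalIdeal R)).hasRightInverse
  set t : Set (maximalIdeal R) := insert ⟨x, hx⟩ (σ '' (B \ {v})) with ht
  have himg : (maximalIdeal R).toCotangent '' t = B := by
    rw [ht, Set.image_insert_eq, ← Set.image_comp]
    have : ((maximalIdeal R).toCotangent ∘ σ) '' (B \ {v}) = B \ {v} := by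
      rw [Function.RightInverse.comp_eq_id hσ, Set.image_id]
    rw [this, ← hv]
    simp [Set.insert_eq_of_mem hvB]
  have hspan2 : Submodule.span R t = ⊤ := by
    rw [← CotangentSpace.span_image_eq_top_iff, himg, hspan]
  have hm : maximalIdeal R = span ((Subtype.val : maximalIdeal R → R) '' t) := by
    have := congrArg (Submodule.map (Submodule.subtype (maximalIdeal R))) hspan2
    rw [Submodule.map_span, Submodule.map_top, Submodule.range_subtype] at this
    exact this.symm
  have hmq : maximalIdeal (R ⧸ span {x}) =
      span (Ideal.Quotient.mk (span {x}) '' ((Subtype.val : maximalIdeal R → R) '' (σ '' (B \ {v})))) := by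
    have h1 : maximalIdeal (R ⧸ span {x}) = (maximalIdeal R).map (Ideal.Quotient.mk (span {x})) := by
      refine (IsLocalRing.eq_maximalIdeal ?_).symm
      refine Or.resolve_left (Ideal.map_eq_top_or_isMaximal_of_surjective _
        Ideal.Quotient.mk_surjective (maximalIdeal.isMaximal R)) ?_
      intro h
      have := Ideal.comap_map_of_surjective _ (Ideal.Quotient.mk_surjective (I := span {x}))
        (maximalIdeal R)
      rw [h, Ideal.comap_top, ← RingHom.ker_eq_comap_bot, Ideal.mk_ker] at this
      have h2 : maximalIdeal R ⊔ span {x} = maximalIdeal R :=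
        sup_eq_left.mpr ((Ideal.span_singleton_le_iff_mem _).mpr hx)
      rw [h2] at this
      exact (maximalIdeal.isMaximal R).ne_top this.symm
    rw [h1]
    conv_lhs => rw [hm]
    rw [Ideal.map_span, ht, Set.image_insert_eq, Set.image_insert_eq]
    have h0 : Ideal.Quotient.mk (span {x}) x = 0 :=
      Ideal.Quotient.eq_zero_iff_mem.mpr (Ideal.mem_span_singleton_self x)
    simp only [h0]
    exact Submodule.span_insert_zero
  rw [hmq]
  have hfin2 : (B \ {v}).Finite := hfin.subset Set.sdiff_subset
  have h3 : (Ideal.Quotient.mk (span {x}) '' ((Subtype.val : maximalIdeal R → R) '' (σ '' (B \ {v})))).ncard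
      ≤ (B \ {v}).ncard :=
    (Set.ncard_image_le ((hfin2.image _).image _)).trans
      ((Set.ncard_image_le (hfin2.image _)).trans (Set.ncard_image_le hfin2))
  have h4 := Submodule.spanFinrank_span_le_ncard_of_finite (R := R ⧸ span {x})
    (((hfin2.image σ).image (Subtype.val : maximalIdeal R → R)).image (Ideal.Quotient.mk (span {x})))
  have h5 : (B \ {v}).ncard + 1 = B.ncard := Set.ncard_sdiff_singleton_add_one hvB hfin
  rw [← hcard, ← h5]
  exact Nat.add_le_add_right (h4.trans h3) 1

theorem isLocalRing_quot [IsLocalRing R] (x : R) (hx : x ∈ maximalIdeal R) :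
    IsLocalRing (R ⧸ span {x}) := by
  have : Nontrivial (R ⧸ span {x}) := by
    apply Ideal.Quotient.nontrivial_iff.mpr
    intro h
    have : (1 : R) ∈ maximalIdeal R :=
      ((Ideal.span_singleton_le_iff_mem _).mpr hx) (h ▸ Submodule.mem_top)
    exact (Ideal.ne_top_iff_one _).mp (maximalIdeal.isMaximal R).ne_top this
  exact IsLocalRing.of_surjective' (Ideal.Quotient.mk (span {x})) Ideal.Quotient.mk_surjective

/-- The quotient of a regular local ring by an element of `m \ m²` is regular. -/
theorem quot_regular [IsRegularLocalRing R] (x : R) (hx : x ∈ maximalIdeal R)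
    (hx2 : x ∉ maximalIdeal R ^ 2) : IsRegularLocalRing (R ⧸ span {x}) := by
  have := isLocalRing_quot x hx
  apply IsRegularLocalRing.of_spanFinrank_maximalIdeal_le
  have h1 := spanFinrank_quot_lt x hx hx2
  have h2 : ringKrullDim R ≤ ringKrullDim (R ⧸ span {x}) + 1 := by
    have := ringKrullDim_le_ringKrullDim_quotient_add_encard (R := R) ({x} : Set R) (by
      rw [IsLocalRing.ringJacobson_eq_maximalIdeal]; simpa using hx)
    simpa using this
  have h3 := (isRegularLocalRing_iff R).mp inferInstance
  have h4 : ((maximalIdeal (R ⧸ span {x})).spanFinrank : WithBot ℕ∞) + 1 ≤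
      ringKrullDim (R ⧸ span {x}) + 1 := by
    refine le_trans ?_ h2
    rw [← h3]
    exact_mod_cast h1
  rwa [ENat.WithBot.add_le_add_one_right_iff] at h4

/-- In a local Noetherian ring which is not a field, `m² ≠ m`. -/
theorem not_le_sq [IsLocalRing R] [IsNoetherianRing R] (h : maximalIdeal R ≠ ⊥) :
    ¬ maximalIdeal R ≤ maximalIdeal R ^ 2 := by
  intro hle
  apply h
  apply Submodule.eq_bot_of_le_smul_of_le_jacobson_bot (maximalIdeal R) (maximalIdeal R)
    (IsNoetherian.noetherian _)
  · rwa [smul_eq_mul, ← pow_two]
  · rw [IsLocalRing.jacobson_eq_maximalIdeal _ bot_ne_top]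

theorem spanFinrank_zero_iff [IsLocalRing R] [IsNoetherianRing R] :
    (maximalIdeal R).spanFinrank = 0 ↔ maximalIdeal R = ⊥ :=
  Submodule.spanFinrank_eq_zero_iff_eq_bot (IsNoetherian.noetherian _)

/-- A regular local ring is a domain. -/
theorem isDomain_aux (n : ℕ) : ∀ (R : Type u) [CommRing R] [IsRegularLocalRing R],
    (maximalIdeal R).spanFinrank = n → IsDomain R := by
  classical
  induction n using Nat.strong_induction_on with
  | _ n ih =>
    intro R _ _ hn
    by_cases h0 : maximalIdeal R = ⊥
    · have : (⊥ : Ideal R).IsPrime := h0 ▸ (maximalIdeal.isMaximal R).isPrime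
      exact IsDomain.of_bot_isPrime R
    have hdim := (isRegularLocalRing_iff R).mp inferInstance
    have hsq := not_le_sq h0
    have hfin := (⊥ : Ideal R).finite_minimalPrimes_of_isNoetherianRing R
    -- prime avoidance
    have hex : ∃ x ∈ maximalIdeal R, x ∉ maximalIdeal R ^ 2 ∧ ∀ p ∈ (⊥ : Ideal R).minimalPrimes, x ∉ p := by
      by_contra hcon
      push Not at hcon
      have hsub : (maximalIdeal R : Set R) ⊆
          ⋃ i ∈ ((insert (maximalIdeal R ^ 2) hfin.toFinset : Finset (Ideal R)) : Set (Ideal R)),
            (id i : Ideal R) := by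
        intro x hx
        by_cases hx2 : x ∈ maximalIdeal R ^ 2
        · simp only [Set.mem_iUnion]
          exact ⟨_, by simp, hx2⟩
        · obtain ⟨p, hp, hxp⟩ := hcon x hx hx2
          simp only [Set.mem_iUnion]
          exact ⟨p, by simp [hp], hxp⟩
      rw [Ideal.subset_union_prime (maximalIdeal R ^ 2) (maximalIdeal R ^ 2)] at hsub
      · obtain ⟨i, hi, hle⟩ := hsub
        rw [Finset.mem_insert, Set.Finite.mem_toFinset] at hi
        rcases hi with rfl | hi
        · exact hsq hle
        · have hpr : i.IsPrime := hi.1.1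
          have heq : maximalIdeal R = i := le_antisymm hle (IsLocalRing.le_maximalIdeal hpr.ne_top)
          have hht : (maximalIdeal R).height = 0 := by
            rw [heq, Ideal.height_eq_zero_iff]
            exact hi
          rw [← IsLocalRing.maximalIdeal_height_eq_ringKrullDim, hht] at hdim
          apply h0
          rw [← spanFinrank_zero_iff]
          exact_mod_cast hdim
      · intro i hi h1 h2
        rw [Finset.mem_insert, Set.Finite.mem_toFinset] at hi
        rcases hi with rfl | hi
        · exact absurd rfl h1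
        · exact hi.1.1
    obtain ⟨x, hx, hx2, hxp⟩ := hex
    have hreg := quot_regular x hx hx2
    have hlt := spanFinrank_quot_lt x hx hx2
    have hdom : IsDomain (R ⧸ span {x}) := ih _ (by omega) (R ⧸ span {x}) rfl
    have hprime : (span {x}).IsPrime := (Ideal.Quotient.isDomain_iff_prime _).mp hdom
    obtain ⟨p, hpmin, hple⟩ := Ideal.exists_minimalPrimes_le (bot_le (a := span {x}))
    have hpp : p.IsPrime := hpmin.1.1
    have hbot : p = ⊥ := by
      apply Submodule.eq_bot_of_le_smul_of_le_jacobson_bot (maximalIdeal R) p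
        (IsNoetherian.noetherian _)
      · intro y hy
        obtain ⟨a, rfl⟩ := Ideal.mem_span_singleton'.mp (hple hy)
        have ha : a ∈ p := (hpp.mem_or_mem hy).resolve_right (hxp p hpmin)
        rw [mul_comm, smul_eq_mul]
        exact Ideal.mul_mem_mul hx ha
      · rw [IsLocalRing.jacobson_eq_maximalIdeal _ bot_ne_top]
    rw [hbot] at hpp
    exact IsDomain.of_bot_isPrime R

theorem isDomain_of_regular (R : Type u) [CommRing R] [IsRegularLocalRing R] : IsDomain R :=
  isDomain_aux _ R rfl

end Pool.Agent.Lib.RegularUFD
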