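import Pool.Agent.Lib.RegularUFD.Smooth

/-! Stalks of smooth schemes over a field are regular local rings, domains and unique
factorization domains. -/

open AlgebraicGeometry CategoryTheory IsLocalRing TopologicalSpace

namespace Pool.Agent.Lib.RegularUFD

universe u

variable {k : Type u} [Field k]

/-- A nonempty open subset of the spectrum of a field is everything. -/
theorem opens_eq_top (U : (Spec (CommRingCat.of k)).Opens) (y : Spec (CommRingCat.of k)) (hy : y ∈ U) :
    U = ⊤ := by
  ext z
  simp only [Opens.coe_top, Set.mem_univ, iff_true]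
  have : Subsingleton (PrimeSpectrum k) := inferInstance
  have hzy : z = y := Subsingleton.elim (α := PrimeSpectrum k) z y
  rw [hzy]
  exact hy

theorem isRegularRing_stalk (X : Scheme.{u}) (f : X ⟶ Spec (CommRingCat.of k)) [Smooth f] (x : X) :
    IsRegularRing (X.presheaf.stalk x) := by
  obtain ⟨U, hU, V, hV, hxV, e, hf⟩ := Smooth.exists_isStandardSmooth f x
  have hUtop : U = ⊤ := opens_eq_top U (f x) (e hxV)
  have hreg : IsRegularRing Γ(Spec (CommRingCat.of k), U) := by
    rw [hUtop]
    have : IsRegularRing k := inferInstance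
    exact IsRegularRing.of_ringEquiv (Scheme.ΓSpecIso (CommRingCat.of k)).commRingCatIsoToRingEquiv.symm
  have hV2 : IsRegularRing Γ(X, V) := isRegularRing_of_isStandardSmooth _ hf
  let := X.presheaf.algebra_section_stalk ⟨x, hxV⟩
  have hloc : IsLocalization.AtPrime (X.presheaf.stalk x) (hV.primeIdealOf ⟨x, hxV⟩).asIdeal :=
    hV.isLocalization_stalk ⟨x, hxV⟩
  exact isRegularRing_of_isLocalization (hV.primeIdealOf ⟨x, hxV⟩).asIdeal.primeCompl _

theorem isRegularLocalRing_stalk (X : Scheme.{u}) (f : X ⟶ Spec (CommRingCat.of k)) [Smooth f] (x : X) :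
    IsRegularLocalRing (X.presheaf.stalk x) := by
  have := isRegularRing_stalk X f x
  exact IsRegularLocalRing.of_isRegularRing_of_isLocalRing _

theorem isDomain_stalk (X : Scheme.{u}) (f : X ⟶ Spec (CommRingCat.of k)) [Smooth f] (x : X) :
    IsDomain (X.presheaf.stalk x) := by
  have := isRegularLocalRing_stalk X f x
  exact isDomain_of_regular _

/-- The stalks of a smooth scheme over a field are unique factorization domains. -/
theorem ufd_stalk (X : Scheme.{u}) (f : X ⟶ Spec (CommRingCat.of k)) [Smooth f] (x : X) :
    UniqueFactorizationMonoid (X.presheaf.stalk x) := by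
  have := isRegularRing_stalk X f x
  exact ufd_of_regular _

end Pool.Agent.Lib.RegularUFD
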