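import Pool.Agent.Lib.RegularUFD.StablyFree

/-! Auslander–Buchsbaum for local rings all of whose localizations are regular:
such rings are unique factorization domains. -/

open IsLocalRing Ideal TensorProduct

namespace Pool.Agent.Lib.RegularUFD

universe u

/-- A localization of a regular ring is regular. -/
theorem isRegularRing_of_isLocalization {R : Type u} [CommRing R] [IsRegularRing R]
    (M : Submonoid R) (S : Type u) [CommRing S] [Algebra R S] [IsLocalization M S] :
    IsRegularRing S := by
  have : IsNoetherianRing S := IsLocalization.isNoetherianRing M S inferInstance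
  rw [isRegularRing_iff]
  intro Q hQ
  have h1 : IsLocalization.AtPrime (Localization.AtPrime Q) (Q.comap (algebraMap R S)) :=
    IsLocalization.isLocalization_isLocalization_atPrime_isLocalization M
      (Localization.AtPrime Q) Q
  have h2 : IsRegularLocalRing (Localization.AtPrime (Q.comap (algebraMap R S))) :=
    isRegularRing_iff.mp inferInstance _
  exact IsRegularLocalRing.of_ringEquiv (IsLocalization.algEquiv (Q.comap (algebraMap R S)).primeCompl
    (Localization.AtPrime (Q.comap (algebraMap R S))) (Localization.AtPrime Q)).toRingEquiv

theorem projective_of_isPrincipal {A : Type u} [CommRing A] [IsDomain A] (I : Ideal A)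
    (h : I.IsPrincipal) : Module.Projective A I := by
  obtain ⟨c, hc⟩ := h
  by_cases hc0 : c = 0
  · have : I = ⊥ := by rw [hc, hc0]; simp
    rw [this]
    infer_instance
  · rw [hc]
    exact Module.Projective.of_equiv (LinearEquiv.toSpanNonzeroSingleton A A c hc0)

theorem isPrincipal_map {A B : Type u} [CommRing A] [IsDomain A] [CommRing B] [IsDomain B] [Algebra A B]
    (M : Submonoid A) [IsLocalization M B] [UniqueFactorizationMonoid B]
    (P : Ideal A) [P.IsPrime] (hP : P.height = 1) : (P.map (algebraMap A B)).IsPrincipal := by
  by_cases hd : Disjoint (M : Set A) (P : Set A)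
  · have := IsLocalization.isPrime_of_isPrime_disjoint M B P inferInstance hd
    apply UniqueFactorizationMonoid.isPrincipal_of_height_eq_one
    rw [← IsLocalization.height_under M, IsLocalization.under_map_of_isPrime_disjoint M B inferInstance hd, hP]
  · have : P.map (algebraMap A B) = ⊤ := by
      obtain ⟨s, hs, hsP⟩ := Set.not_disjoint_iff.mp hd
      exact Ideal.eq_top_of_isUnit_mem _ (Ideal.mem_map_of_mem _ hsP)
        (IsLocalization.map_units B ⟨s, hs⟩)
    rw [this]
    exact ⟨1, by simp⟩

theorem ufd_aux (n : ℕ) : ∀ (R : Type u) [CommRing R] [IsLocalRing R] [IsRegularRing R] [IsDomain R],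
    ringKrullDim R = n → UniqueFactorizationMonoid R := by
  classical
  induction n using Nat.strong_induction_on with
  | _ n ih =>
    intro R _ _ _ _ hn
    have hreg : IsRegularLocalRing R := IsRegularLocalRing.of_isRegularRing_of_isLocalRing R
    by_cases h0 : maximalIdeal R = ⊥
    · have hf : IsField R := (IsLocalRing.isField_iff_maximalIdeal_eq).mpr h0
      let := hf.toField
      infer_instance
    obtain ⟨x, hx, hx2⟩ := Set.not_subset.mp (not_le_sq h0)
    have hqreg := quot_regular x hx hx2
    have hdom := isDomain_of_regular (R ⧸ span {x})
    have hx0 : x ≠ 0 := by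
      rintro rfl
      exact hx2 (Ideal.zero_mem _)
    have hxp : Prime x := by
      rw [← Ideal.span_singleton_prime hx0]
      exact (Ideal.Quotient.isDomain_iff_prime _).mp hdom
    rw [UniqueFactorizationMonoid.iff_localizationAway_of_prime hxp]
    set A := Localization.Away x with hA
    have : IsDomain A := IsLocalization.Away.isDomain A hx0
    have hAreg : IsRegularRing A := isRegularRing_of_isLocalization (Submonoid.powers x) A
    apply UniqueFactorizationMonoid.of_forall_isPrincipal_of_height_eq_one
    intro P hP hP1
    -- projectivity
    have hfp : Module.FinitePresentation A P := Module.finitePresentation_of_finite A P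
    have hproj : Module.Projective A P := by
      apply Module.projective_of_localization_maximal' (R := A) (M := P)
        (Rₚ := fun q _ => Localization.AtPrime q)
        (Mₚ := fun q _ => P.map (algebraMap A (Localization.AtPrime q)))
        (f := fun q _ => Algebra.idealMap (Localization.AtPrime q) P)
      intro q hq
      set B := Localization.AtPrime q with hB
      have hBreg : IsRegularRing B := isRegularRing_of_isLocalization q.primeCompl B
      have hloc : IsLocalization.AtPrime B (q.comap (algebraMap R A)) :=
        IsLocalization.isLocalization_isLocalization_atPrime_isLocalization (Submonoid.powers x) B q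
      have hqlt : q.comap (algebraMap R A) < maximalIdeal R := by
        refine lt_of_le_of_ne (IsLocalRing.le_maximalIdeal (Ideal.IsPrime.ne_top inferInstance)) ?_
        intro h
        have hxq : x ∈ q.comap (algebraMap R A) := h ▸ hx
        exact hq.ne_top (Ideal.eq_top_of_isUnit_mem _ (Ideal.mem_comap.mp hxq)
          (IsLocalization.Away.algebraMap_isUnit x))
      have hdimB : ringKrullDim B = (q.comap (algebraMap R A)).height :=
        IsLocalization.AtPrime.ringKrullDim_eq_height _ B
      have hht : (q.comap (algebraMap R A)).height < (maximalIdeal R).height :=
        Ideal.height_strict_mono_of_isPrime_of_isPrime hqlt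
      have hmax := IsLocalRing.maximalIdeal_height_eq_ringKrullDim (R := R)
      rw [hn] at hmax
      obtain ⟨m, hm⟩ := ENat.ne_top_iff_exists.mp (Ideal.height_ne_top (I := q.comap (algebraMap R A)) (Ideal.IsPrime.ne_top inferInstance))
      have hmn : m < n := by
        rw [← hm] at hht
        have h5 : (maximalIdeal R).height = n := by exact_mod_cast hmax
        rw [h5] at hht
        exact_mod_cast hht
      have hUB : UniqueFactorizationMonoid B := by
        apply ih m hmn B
        rw [hdimB, ← hm]
        rfl
      exact projective_of_isPrincipal _ (isPrincipal_map q.primeCompl P hP1)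
    -- resolution
    have hres : FFR A n P := by
      have h1 : FFR R n (P.under R) := ffr_of_regular n R (by
        have := (isRegularLocalRing_iff R).mp inferInstance
        rw [hn] at this
        have h2 : (maximalIdeal R).spanFinrank = n := by exact_mod_cast this
        exact h2.le) _
      have hflat : Module.Flat R A := IsLocalization.flat A (Submonoid.powers x)
      have h2 : FFR A n (A ⊗[R] (P.under R)) := ffr_baseChange n _ h1
      have h3 : IsBaseChange A (Algebra.idealMap A (P.under R)) :=
        IsLocalizedModule.isBaseChange (Submonoid.powers x) A _
      have h4 : (P.under R).map (algebraMap R A) = P := IsLocalization.map_under (Submonoid.powers x) A P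
      have h5 := h2.congr h3.equiv
      rwa [h4] at h5
    obtain ⟨a, b, ⟨e⟩⟩ := stably_free n P hres
    exact principal_of_equiv P (P.ne_bot_of_height_eq_one hP1) a b e

theorem ufd_of_regular (R : Type u) [CommRing R] [IsLocalRing R] [IsRegularRing R] :
    UniqueFactorizationMonoid R := by
  have hreg : IsRegularLocalRing R := IsRegularLocalRing.of_isRegularRing_of_isLocalRing R
  have : IsDomain R := isDomain_of_regular R
  exact ufd_aux _ R ((isRegularLocalRing_iff R).mp inferInstance).symm

end Pool.Agent.Lib.RegularUFD
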