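import Pool.Agent.Lib.RegularUFD.Domain

/-! Finite free resolutions over regular local rings. -/

open IsLocalRing Ideal

namespace Pool.Agent.Lib.RegularUFD

universe u

/-- `FFR R n M`: the module `M` has a resolution of length at most `n` by finite free modules. -/
def FFR (R : Type u) [CommRing R] : ℕ → ∀ (M : Type u) [AddCommGroup M] [Module R M], Prop
  | 0, M, _, _ => Module.Free R M ∧ Module.Finite R M
  | n + 1, M, _, _ => ∃ (k : ℕ) (f : (Fin k → R) →ₗ[R] M), Function.Surjective f ∧
      FFR R n (LinearMap.ker f)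

section
variable {R : Type u} [CommRing R]

theorem FFR.congr {n : ℕ} {M N : Type u} [AddCommGroup M] [Module R M] [AddCommGroup N] [Module R N]
    (e : M ≃ₗ[R] N) (h : FFR R n M) : FFR R n N := by
  cases n with
  | zero =>
    obtain ⟨h1, h2⟩ := h
    exact ⟨Module.Free.of_equiv e, Module.Finite.equiv e⟩
  | succ n =>
    obtain ⟨k, f, hf, hk⟩ := h
    refine ⟨k, e.toLinearMap ∘ₗ f, e.surjective.comp hf, ?_⟩
    have : LinearMap.ker (e.toLinearMap ∘ₗ f) = LinearMap.ker f := by
      rw [LinearMap.ker_comp_of_ker_eq_bot]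
      exact e.ker
    rw [this]
    exact hk

/-- Nakayama: a submodule `N` of a finite module with `N + xK = K`, `x` in the maximal ideal. -/
theorem eq_top_of_sup [IsLocalRing R] {K : Type u} [AddCommGroup K] [Module R K] [Module.Finite R K]
    (x : R) (hx : x ∈ maximalIdeal R) (N : Submodule R K) (h : ∀ y : K, ∃ a ∈ N, ∃ b : K, y = a + x • b) :
    N = ⊤ := by
  refine top_le_iff.mp ?_
  apply Submodule.le_of_le_smul_of_le_jacobson_bot (I := maximalIdeal R) (Module.finite_def.mp inferInstance)
  · rw [IsLocalRing.jacobson_eq_maximalIdeal _ bot_ne_top]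
  · intro y _
    obtain ⟨a, ha, b, rfl⟩ := h y
    exact Submodule.add_mem_sup ha (Submodule.smul_mem_smul hx Submodule.mem_top)

/-- Nakayama: a finite module `N` in which every element is `x` times an element is zero. -/
theorem eq_bot_of_smul [IsLocalRing R] {K : Type u} [AddCommGroup K] [Module R K]
    (x : R) (hx : x ∈ maximalIdeal R) (N : Submodule R K) (hN : N.FG) (h : ∀ y ∈ N, ∃ b ∈ N, y = x • b) :
    N = ⊥ := by
  apply Submodule.eq_bot_of_le_smul_of_le_jacobson_bot (maximalIdeal R) N hN
  · intro y hy
    obtain ⟨b, hb, rfl⟩ := h y hy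
    exact Submodule.smul_mem_smul hx hb
  · rw [IsLocalRing.jacobson_eq_maximalIdeal _ bot_ne_top]

end

section lift
variable {R : Type u} [CommRing R] [IsLocalRing R] [IsNoetherianRing R] {x : R}
  {B : Type u} [CommRing B] [Nontrivial B] [Algebra R B]

/-- Lifting a map from a free module over the quotient ring `B = R/x`. -/
theorem exists_lift (hx : x ∈ maximalIdeal R)
    {K K' : Type u} [AddCommGroup K] [Module R K] [Module.Finite R K] [AddCommGroup K'] [Module R K']
    [Module B K'] [IsScalarTower R B K'] (π : K →ₗ[R] K') (hπ : Function.Surjective π)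
    (hker : ∀ k, π k = 0 → ∃ k', k = x • k') (hB : Function.Surjective (algebraMap R B))
    (k : ℕ) (f : (Fin k → B) →ₗ[B] K') (hf : Function.Surjective f) :
    ∃ g : (Fin k → R) →ₗ[R] K, Function.Surjective g ∧
      ∀ v, π (g v) = f (fun i => algebraMap R B (v i)) := by
  classical
  choose e he using fun i : Fin k => hπ (f (Pi.single i 1))
  let g : (Fin k → R) →ₗ[R] K := Fintype.linearCombination R e
  have hg : ∀ v, π (g v) = f (fun i => algebraMap R B (v i)) := by
    intro v
    have h1 : (fun i => algebraMap R B (v i)) = ∑ i, (algebraMap R B (v i)) • (Pi.single i 1 : Fin k → B) := by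
      ext j
      simp [Finset.sum_apply, Pi.single_apply, Algebra.algebraMap_eq_smul_one]
    rw [h1, map_sum, show g v = ∑ i, v i • e i from Fintype.linearCombination_apply R e v, map_sum]
    refine Finset.sum_congr rfl fun i _ => ?_
    rw [map_smul, map_smul, he, algebraMap_smul]
  refine ⟨g, ?_, hg⟩
  rw [← LinearMap.range_eq_top]
  apply eq_top_of_sup x hx
  intro y
  obtain ⟨w, hw⟩ := hf (π y)
  choose v hv using fun i => hB (w i)
  have h2 : π (y - g v) = 0 := by
    rw [map_sub, hg, sub_eq_zero, ← hw]
    congr 1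
    ext i
    exact (hv i).symm
  obtain ⟨b, hb⟩ := hker _ h2
  exact ⟨g v, ⟨v, rfl⟩, b, by rw [← hb]; abel⟩

theorem ffr_lift (hx : x ∈ maximalIdeal R) (hreg : ∀ r : R, x * r = 0 → r = 0)
    (hB : Function.Surjective (algebraMap R B)) (hBker : ∀ r, algebraMap R B r = 0 ↔ ∃ s, r = x * s)
    (n : ℕ) : ∀ (K K' : Type u) [AddCommGroup K] [Module R K] [Module.Finite R K] [AddCommGroup K'] [Module R K']
    [Module B K'] [IsScalarTower R B K'] (π : K →ₗ[R] K') (_ : Function.Surjective π)
    (_ : ∀ k, π k = 0 → ∃ k', k = x • k') (_ : ∀ k : K, x • k = 0 → k = 0),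
    FFR B n K' → FFR R n K := by
  classical
  induction n with
  | zero =>
    intro K K' _ _ _ _ _ _ _ π hπ hker hKreg hK'
    obtain ⟨h1, h2⟩ := hK'
    let b := Module.finBasis B K'
    obtain ⟨g, hg, hgf⟩ := exists_lift hx π hπ hker hB _ b.equivFun.symm.toLinearMap b.equivFun.symm.surjective
    have hinj : LinearMap.ker g = ⊥ := by
      apply eq_bot_of_smul x hx _ (IsNoetherian.noetherian _)
      intro v hv
      have h3 : (fun i => algebraMap R B (v i)) = 0 := by
        have := hgf v
        rw [LinearMap.mem_ker.mp hv, map_zero] at this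
        exact (b.equivFun.symm.map_eq_zero_iff.mp this.symm)
      choose w hw using fun i => (hBker (v i)).mp (congrFun h3 i)
      have hvw : v = x • w := by
        ext i
        simp [hw i]
      refine ⟨w, ?_, hvw⟩
      rw [LinearMap.mem_ker]
      apply hKreg
      rw [← map_smul, ← hvw]
      exact hv
    let e : (Fin (Module.finrank B K') → R) ≃ₗ[R] K :=
      LinearEquiv.ofBijective g ⟨LinearMap.ker_eq_bot.mp hinj, hg⟩
    exact ⟨Module.Free.of_equiv e, Module.Finite.equiv e⟩
  | succ n ih =>
    intro K K' _ _ _ _ _ _ _ π hπ hker hKreg hK'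
    obtain ⟨k, f, hf, hres⟩ := hK'
    obtain ⟨g, hg, hgf⟩ := exists_lift hx π hπ hker hB _ f hf
    refine ⟨k, g, hg, ?_⟩
    let red : (Fin k → R) →ₗ[R] (Fin k → B) :=
      LinearMap.compLeft (Algebra.linearMap R B) (Fin k)
    have hred : ∀ v, red v = fun i => algebraMap R B (v i) := fun v => rfl
    let π' : LinearMap.ker g →ₗ[R] (LinearMap.ker f) :=
      { toFun := fun v => ⟨red v.1, by
          rw [LinearMap.mem_ker, hred, ← hgf, LinearMap.mem_ker.mp v.2, map_zero]⟩
        map_add' := fun a b => by ext1; simp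
        map_smul' := fun a b => by ext1; simp }
    apply ih (LinearMap.ker g) (LinearMap.ker f) π' _ _ _ hres
    · rintro ⟨w, hw⟩
      choose v hv using fun i => hB (w i)
      have h3 : π (g v) = 0 := by
        rw [hgf]
        have : (fun i => algebraMap R B (v i)) = w := funext hv
        rw [this]
        exact hw
      obtain ⟨c, hc⟩ := hker _ h3
      obtain ⟨u, rfl⟩ := hg c
      refine ⟨⟨v - x • u, ?_⟩, ?_⟩
      · rw [LinearMap.mem_ker, map_sub, map_smul, hc, sub_self]
      · apply Subtype.ext
        change red (v - x • u) = w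
        rw [map_sub, map_smul]
        ext i
        have h4 : algebraMap R B x = 0 := (hBker x).mpr ⟨1, by ring⟩
        have h5 : (x • red u) i = x • (red u) i := rfl
        have h6 : (red v) i = w i := hv i
        rw [Pi.sub_apply, h5, h6, Algebra.smul_def, h4, zero_mul, sub_zero]
    · rintro ⟨v, hv⟩ h0
      have h3 : red v = 0 := congrArg Subtype.val h0
      choose w hw using fun i => (hBker (v i)).mp (congrFun h3 i)
      have hvw : v = x • w := by
        ext i
        simp [hw i]
      refine ⟨⟨w, ?_⟩, Subtype.ext hvw⟩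
      rw [LinearMap.mem_ker]
      apply hKreg
      rw [← map_smul, ← hvw]
      exact hv
    · rintro ⟨v, hv⟩ h0
      apply Subtype.ext
      have h3 : x • v = 0 := congrArg Subtype.val h0
      ext i
      exact hreg _ (congrFun h3 i)

end lift

/-- Over a regular local ring of dimension at most `n` every finite module has a finite free
resolution of length at most `n`. -/
theorem ffr_of_regular (n : ℕ) : ∀ (R : Type u) [CommRing R] [IsRegularLocalRing R]
    (_ : (maximalIdeal R).spanFinrank ≤ n) (M : Type u) [AddCommGroup M] [Module R M]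
    [Module.Finite R M], FFR R n M := by
  induction n with
  | zero =>
    intro R _ _ hn M _ _ _
    have h0 : maximalIdeal R = ⊥ := spanFinrank_zero_iff.mp (Nat.le_zero.mp hn)
    have hf : IsField R := (IsLocalRing.isField_iff_maximalIdeal_eq).mpr h0
    refine ⟨?_, inferInstance⟩
    let := hf.toField
    exact Module.Free.of_divisionRing R M
  | succ n ih =>
    intro R _ _ hn M _ _ _
    have hdom : IsDomain R := isDomain_of_regular R
    obtain ⟨k, f, hf⟩ := Module.Finite.exists_fin' R M
    refine ⟨k, f, hf, ?_⟩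
    by_cases h0 : maximalIdeal R = ⊥
    · exact ih R (by rw [spanFinrank_zero_iff.mpr h0]; exact Nat.zero_le _) _
    obtain ⟨x, hx, hx2⟩ := Set.not_subset.mp (not_le_sq h0)
    have hreg := quot_regular x hx hx2
    have hlt := spanFinrank_quot_lt x hx hx2
    have hx0 : x ≠ 0 := by
      rintro rfl
      exact hx2 (Ideal.zero_mem _)
    let K := LinearMap.ker f
    let K' := K ⧸ (span {x} • (⊤ : Submodule R K))
    have hK' : FFR (R ⧸ span {x}) n K' := by
      have : Module.Finite (R ⧸ span {x}) K' := Module.Finite.of_restrictScalars_finite R _ _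
      exact ih (R ⧸ span {x}) (by omega) K'
    apply ffr_lift (B := R ⧸ span {x}) hx _ Ideal.Quotient.mk_surjective _ n K K'
      (Submodule.mkQ _) (Submodule.mkQ_surjective _) _ _ hK'
    · intro r hr
      exact (mul_eq_zero.mp hr).resolve_left hx0
    · intro r
      rw [Ideal.Quotient.algebraMap_eq, Ideal.Quotient.eq_zero_iff_mem, Ideal.mem_span_singleton']
      constructor
      · rintro ⟨a, ha⟩
        exact ⟨a, by rw [← ha, mul_comm]⟩
      · rintro ⟨a, ha⟩
        exact ⟨a, by rw [ha, mul_comm]⟩
    · intro v hv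
      rw [Submodule.mkQ_apply, Submodule.Quotient.mk_eq_zero, Submodule.ideal_span_singleton_smul,
        Submodule.mem_smul_pointwise_iff_exists] at hv
      obtain ⟨b, _, hb⟩ := hv
      exact ⟨b, hb.symm⟩
    · intro v hv
      exact (smul_eq_zero.mp hv).resolve_left hx0

end Pool.Agent.Lib.RegularUFD
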