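import Pool.Agent.Lib.RegularUFD.Main

/-! Étale algebras over regular rings and standard smooth algebras over fields are regular;
stalks of smooth schemes over a field are regular, hence unique factorization domains. -/

open IsLocalRing Ideal TensorProduct

namespace Pool.Agent.Lib.RegularUFD

universe u

/-- Étale algebras over a regular ring are regular. -/
theorem isRegularRing_of_etale (P S : Type u) [CommRing P] [CommRing S] [Algebra P S]
    [IsRegularRing P] [Algebra.Etale P S] : IsRegularRing S := by
  have hN : IsNoetherianRing S := Algebra.FiniteType.isNoetherianRing P S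
  rw [isRegularRing_iff]
  intro Q hQ
  let p : Ideal P := Q.under P
  have hp : p.IsPrime := inferInstance
  have hover : Q.LiesOver p := ⟨rfl⟩
  let alg : Algebra (Localization.AtPrime p) (Localization.AtPrime Q) :=
    Localization.AtPrime.algebraOfLiesOver p Q
  have hover2 : Localization.AtPrime.IsLiesOverAlgebra p Q := ⟨rfl⟩
  have hess : Algebra.EssFiniteType P S := inferInstance
  have hunr : Algebra.IsUnramifiedAt P Q := inferInstance
  have hmap := ((Algebra.isUnramifiedAt_iff_map_eq P p Q).mp hunr).2
  have hregp : IsRegularLocalRing (Localization.AtPrime p) := isRegularRing_iff.mp inferInstance _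
  have hp2 := (isRegularLocalRing_iff (Localization.AtPrime p)).mp hregp
  have hNQ : IsNoetherianRing (Localization.AtPrime Q) := IsLocalization.isNoetherianRing Q.primeCompl _ hN
  apply IsRegularLocalRing.of_spanFinrank_maximalIdeal_le
  -- the maximal ideal of the localization is generated by the image of that of `P_p`
  have hmap2 : (maximalIdeal (Localization.AtPrime p)).map
      (algebraMap (Localization.AtPrime p) (Localization.AtPrime Q)) = maximalIdeal (Localization.AtPrime Q) := by
    rw [← Localization.AtPrime.map_eq_maximalIdeal, Ideal.map_map, ← IsScalarTower.algebraMap_eq]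
    exact hmap
  have h1 : (maximalIdeal (Localization.AtPrime Q)).spanFinrank ≤
      (maximalIdeal (Localization.AtPrime p)).spanFinrank := by
    rw [← hmap2]
    exact Ideal.spanFinrank_map_le_of_fg _ (IsNoetherian.noetherian _)
  have h2 : ringKrullDim (Localization.AtPrime p) ≤ ringKrullDim (Localization.AtPrime Q) := by
    rw [IsLocalization.AtPrime.ringKrullDim_eq_height p (Localization.AtPrime p),
      IsLocalization.AtPrime.ringKrullDim_eq_height Q (Localization.AtPrime Q)]
    have hgd : Algebra.HasGoingDown P S := Algebra.HasGoingDown.of_flat
    rw [Ideal.height_eq_height_add_of_liesOver_of_hasGoingDown p Q]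
    exact_mod_cast le_self_add
  calc ((maximalIdeal (Localization.AtPrime Q)).spanFinrank : WithBot ℕ∞)
      ≤ ((maximalIdeal (Localization.AtPrime p)).spanFinrank : WithBot ℕ∞) := by exact_mod_cast h1
    _ = ringKrullDim (Localization.AtPrime p) := hp2
    _ ≤ _ := h2

/-- Standard smooth algebras over a regular ring are regular. -/
theorem isRegularRing_of_isStandardSmooth {k S : Type u} [CommRing k] [IsRegularRing k] [CommRing S]
    (f : k →+* S) (hf : f.IsStandardSmooth) : IsRegularRing S := by
  obtain ⟨n, g, -, hg⟩ := RingHom.IsStandardSmooth.exists_etale_mvPolynomial hf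
  let := g.toAlgebra
  have : Algebra.Etale (MvPolynomial (Fin n) k) S := hg
  exact isRegularRing_of_etale (MvPolynomial (Fin n) k) S

end Pool.Agent.Lib.RegularUFD
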