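import Pool.Agent.Lib.RegularUFD.Resolution

/-! Flat base change of resolutions, stably free modules, and the determinant trick:
a nonzero ideal `I` with `I × A^a ≃ A^b` is principal. -/

open IsLocalRing Ideal TensorProduct

namespace Pool.Agent.Lib.RegularUFD

universe u

theorem ffr_baseChange {R A : Type u} [CommRing R] [CommRing A] [Algebra R A] [Module.Flat R A]
    (n : ℕ) : ∀ (M : Type u) [AddCommGroup M] [Module R M], FFR R n M → FFR A n (A ⊗[R] M) := by
  classical
  induction n with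
  | zero =>
    intro M _ _ h
    obtain ⟨h1, h2⟩ := h
    exact ⟨inferInstance, inferInstance⟩
  | succ n ih =>
    intro M _ _ h
    obtain ⟨k, f, hf, hk⟩ := h
    let e : A ⊗[R] (Fin k → R) ≃ₗ[A] (Fin k → A) := TensorProduct.piScalarRight R A A (Fin k)
    let fA : A ⊗[R] (Fin k → R) →ₗ[A] A ⊗[R] M := TensorProduct.AlgebraTensorModule.lTensor A A f
    have hfA : Function.Surjective fA := LinearMap.lTensor_surjective A hf
    refine ⟨k, fA ∘ₗ e.symm.toLinearMap, hfA.comp e.symm.surjective, ?_⟩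
    have h1 : FFR A n (LinearMap.ker fA) := (ih _ hk).congr (LinearMap.tensorKerEquiv A A f)
    have h2 : LinearMap.ker (fA ∘ₗ e.symm.toLinearMap) = (LinearMap.ker fA).map e.toLinearMap := by
      rw [LinearMap.ker_comp, Submodule.map_equiv_eq_comap_symm]
    rw [h2]
    exact h1.congr (e.submoduleMap (LinearMap.ker fA))

theorem stably_free {A : Type u} [CommRing A] [Nontrivial A] (n : ℕ) :
    ∀ (P : Type u) [AddCommGroup P] [Module A P] [Module.Projective A P], FFR A n P →
      ∃ a b : ℕ, Nonempty ((P × (Fin a → A)) ≃ₗ[A] (Fin b → A)) := by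
  induction n with
  | zero =>
    intro P _ _ _ h
    obtain ⟨h1, h2⟩ := h
    refine ⟨0, Module.finrank A P, ⟨?_⟩⟩
    exact LinearEquiv.prodUnique.trans (Module.finBasis A P).equivFun
  | succ n ih =>
    intro P _ _ _ h
    obtain ⟨k, f, hf, hk⟩ := h
    obtain ⟨s, hs⟩ := Module.projective_lifting_property f LinearMap.id hf
    let E : (Fin k → A) ≃ₗ[A] (LinearMap.ker f × P) :=
      (Function.Exact.splitSurjectiveEquiv (LinearMap.exact_subtype_ker_map f)
        (Submodule.injective_subtype _) ⟨s, hs⟩).1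
    have hproj : Module.Projective A (LinearMap.ker f) := by
      have : Module.Projective A (LinearMap.ker f × P) := Module.Projective.of_equiv E
      exact Module.Projective.of_split (LinearMap.inl A (LinearMap.ker f) P)
        (LinearMap.fst A (LinearMap.ker f) P) (by ext; simp)
    obtain ⟨a, b, ⟨e⟩⟩ := ih (LinearMap.ker f) hk
    refine ⟨b, k + a, ⟨?_⟩⟩
    let e1 : (P × (Fin b → A)) ≃ₗ[A] (P × (LinearMap.ker f × (Fin a → A))) :=
      LinearEquiv.prodCongr (LinearEquiv.refl A P) e.symm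
    let e2 : (P × (LinearMap.ker f × (Fin a → A))) ≃ₗ[A] ((P × LinearMap.ker f) × (Fin a → A)) :=
      (LinearEquiv.prodAssoc A P (LinearMap.ker f) (Fin a → A)).symm
    let e3 : ((P × LinearMap.ker f) × (Fin a → A)) ≃ₗ[A] ((Fin k → A) × (Fin a → A)) :=
      LinearEquiv.prodCongr ((LinearEquiv.prodComm A P (LinearMap.ker f)).trans E.symm)
        (LinearEquiv.refl A (Fin a → A))
    let e4 : ((Fin k → A) × (Fin a → A)) ≃ₗ[A] (Fin k ⊕ Fin a → A) :=
      (LinearEquiv.sumArrowLequivProdArrow (Fin k) (Fin a) A A).symm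
    let e5 : (Fin k ⊕ Fin a → A) ≃ₗ[A] (Fin (k + a) → A) :=
      LinearEquiv.funCongrLeft A A finSumFinEquiv.symm
    exact e1.trans (e2.trans (e3.trans (e4.trans e5)))

theorem principal_of_equiv {A : Type u} [CommRing A] [IsDomain A] (I : Ideal A) (hI : I ≠ ⊥)
    (a b : ℕ) (e : (I × (Fin a → A)) ≃ₗ[A] (Fin b → A)) : I.IsPrincipal := by
  classical
  let C : (A × (Fin a → A)) ≃ₗ[A] (Fin (a + 1) → A) := Fin.consLinearEquiv A (fun _ => A)
  have hC0 : ∀ p, C p 0 = p.1 := fun p => rfl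
  have hC : ∀ p, C p = Fin.cons p.1 p.2 := fun p => rfl
  let ι : (I × (Fin a → A)) →ₗ[A] (A × (Fin a → A)) := LinearMap.prodMap I.subtype LinearMap.id
  have hι : Function.Injective ι := by
    rintro ⟨x, v⟩ ⟨y, w⟩ h
    have h1 : (x : A) = y := congrArg Prod.fst h
    have h2 : v = w := congrArg Prod.snd h
    exact Prod.ext (Subtype.ext h1) h2
  let Φ : (Fin b → A) →ₗ[A] (Fin (a + 1) → A) := C.toLinearMap ∘ₗ ι ∘ₗ e.symm.toLinearMap
  have hΦ : Function.Injective Φ := C.injective.comp (hι.comp e.symm.injective)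
  have hba : b ≤ a + 1 := le_of_fin_injective A Φ hΦ
  let ψ : ∀ c : I, (A × (Fin a → A)) →ₗ[A] (I × (Fin a → A)) := fun c =>
    LinearMap.prodMap (LinearMap.toSpanSingleton A I c) LinearMap.id
  have hab : a + 1 ≤ b := by
    obtain ⟨c, hc, hc0⟩ := Submodule.exists_mem_ne_zero_of_ne_bot hI
    apply le_of_fin_injective A (e.toLinearMap ∘ₗ ψ ⟨c, hc⟩ ∘ₗ C.symm.toLinearMap)
    have hψ : Function.Injective (ψ ⟨c, hc⟩) := by
      rintro ⟨x, v⟩ ⟨y, w⟩ h
      have h1 : x * c = y * c := congrArg Subtype.val (congrArg Prod.fst h)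
      have h2 : v = w := congrArg Prod.snd h
      exact Prod.ext (mul_right_cancel₀ hc0 h1) h2
    exact e.injective.comp (hψ.comp C.symm.injective)
  obtain rfl : b = a + 1 := le_antisymm hba hab
  set M : Matrix (Fin (a + 1)) (Fin (a + 1)) A := LinearMap.toMatrix' Φ with hM
  have hrow : ∀ j, M 0 j ∈ I := by
    intro j
    rw [hM, LinearMap.toMatrix'_apply]
    exact (e.symm (Pi.single j 1)).1.2
  have hdet : M.det ∈ I := by
    rw [Matrix.det_succ_row_zero]
    refine I.sum_mem fun j _ => ?_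
    exact I.mul_mem_right _ (I.mul_mem_left _ (hrow j))
  refine ⟨M.det, le_antisymm ?_ ((Ideal.span_singleton_le_iff_mem _).mpr hdet)⟩
  intro c hc
  rw [Ideal.submodule_span_eq, Ideal.mem_span_singleton']
  let Θ : (Fin (a + 1) → A) →ₗ[A] (Fin (a + 1) → A) :=
    e.toLinearMap ∘ₗ ψ ⟨c, hc⟩ ∘ₗ C.symm.toLinearMap
  have hcomp : Φ ∘ₗ Θ = Matrix.toLin' (Matrix.diagonal (Fin.cons c (fun _ => 1) : Fin (a + 1) → A)) := by
    apply LinearMap.ext
    intro v
    have h1 : Φ (Θ v) = C (v 0 * c, Fin.tail v) := by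
      change C (ι (e.symm (e (ψ ⟨c, hc⟩ (C.symm v))))) = _
      rw [LinearEquiv.symm_apply_apply]
      rfl
    rw [LinearMap.comp_apply, h1, Matrix.toLin'_apply, hC]
    ext i
    rw [Matrix.mulVec_diagonal]
    refine Fin.cases ?_ (fun i => ?_) i
    · simp [mul_comm]
    · simp [Fin.tail]
  refine ⟨LinearMap.det Θ, ?_⟩
  have h2 : LinearMap.det (Φ ∘ₗ Θ) = c := by
    rw [hcomp, LinearMap.det_toLin', Matrix.det_diagonal, Fin.prod_univ_succ]
    simp
  rw [LinearMap.det_comp] at h2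
  have h3 : M.det = LinearMap.det Φ := by
    rw [hM, LinearMap.det_toMatrix']
  rw [h3, mul_comm]
  exact h2

end Pool.Agent.Lib.RegularUFD
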